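import Mathlib
import Pool.Agent.H574.Thin.Main

/-!
# MP_e734ed_nt: the weak form of Hall's conjecture on thin sets

To the integers `x, y` with `k = y ^ 2 - x ^ 3 ≠ 0` one attaches the rational number `x ^ 3 / k`; it is
`-j / 1728` for the elliptic curve `E : Y ^ 2 = X ^ 3 - 3 x X + 2 y`, whose discriminant is `-1728 k`.

1. Let `F = A / B` be a rational function over `ℚ` of degree `d`, and let `κ < d` be such that
   * `deg A ≤ deg B + κ` (the multiplicity of the pole at infinity is at most `κ`),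
   * the rational poles of `F` have multiplicity at most `κ`,
   * the irrational real poles of `F` have multiplicity at most `κ / 2`.
   Then for every `ε > 0` there is `C > 0` with `|y ^ 2 - x ^ 3| > C |x| ^ (3 (1 - κ / d) - ε)` for all
   integers `x, y`, `y ^ 2 ≠ x ^ 3`, for which `x ^ 3 / (y ^ 2 - x ^ 3)` is the value of `F` at a rational
   number. So the weak form of Hall's conjecture holds on every thin set `F (ℚ)` with `6 κ ≤ 5 d`.
2. An example for which the irrational poles matter. Let the `j`-invariant of `E` be a value of the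
   function `J` of degree `21`, with three irrational real poles of multiplicity `7`. (It describes the
   map `X → X (1)` for the modular curve `X = X_ns⁺ (7)` of the elliptic curves whose representation
   modulo `7` has its image in the normaliser of a nonsplit Cartan subgroup.) Then
   `|y ^ 2 - x ^ 3| > C |x| ^ (1 - ε)`.
-/

set_option autoImplicit false

namespace Pool.Agent.Results.MP_e734ed_nt.ThinSets

open Polynomial Pool.Agent.H574.Thin

/-- The elliptic curve `Y ^ 2 = X ^ 3 - 3 x X + 2 y`. -/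
def E (x y : ℤ) : WeierstrassCurve ℚ := ⟨0, 0, 0, -3 * x, 2 * y⟩

/-- The `j`-map of the modular curve `X_ns⁺ (7)`. -/
def J (t : ℚ) : ℚ :=
  64 * (t * (t ^ 2 + 7) * (t ^ 2 - 7 * t + 14) * (5 * t ^ 2 - 14 * t - 7)) ^ 3 /
    (t ^ 3 - 7 * t ^ 2 + 7 * t + 7) ^ 7

/-- the irreducible factor of the denominator -/
noncomputable def c (R : Type) [CommRing R] : R[X] := X ^ 3 - 7 * X ^ 2 + 7 * X + 7

/-- the numerator -/
noncomputable def f (R : Type) [CommRing R] : R[X] :=
  X * (X ^ 2 + 7) * (X ^ 2 - 7 * X + 14) * (5 * X ^ 2 - 14 * X - 7)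

theorem c_map (R : Type) [CommRing R] : (c ℤ).map (Int.castRingHom R) = c R := by
  simp [c]

theorem f_map (R : Type) [CommRing R] : (f ℤ).map (Int.castRingHom R) = f R := by
  simp [f]

theorem coprime_of {K : Type} [Field K] [CharZero K] {p q : K[X]} (u v : K[X]) (n : ℕ) (hn : n ≠ 0)
    (h : u * p + v * q = (n : K[X])) : IsCoprime p q := by
  refine ⟨C (n : K)⁻¹ * u, C (n : K)⁻¹ * v, ?_⟩
  have hn' : (n : K) ≠ 0 := by exact_mod_cast hn
  calc C (n : K)⁻¹ * u * p + C (n : K)⁻¹ * v * q = C (n : K)⁻¹ * (u * p + v * q) := by ring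
    _ = C (n : K)⁻¹ * C (n : K) := by rw [h, C_eq_natCast]
    _ = 1 := by rw [← C_mul, inv_mul_cancel₀ hn', C_1]

theorem f_coprime_c : IsCoprime (f ℚ) (c ℚ) := by
  unfold f
  refine IsCoprime.mul_left (IsCoprime.mul_left (IsCoprime.mul_left ?_ ?_) ?_) ?_
  · exact coprime_of (-X ^ 2 + 7 * X - 7) 1 7 (by norm_num) (by unfold c; push_cast; ring)
  · exact coprime_of (-X + 7) 1 56 (by norm_num) (by unfold c; push_cast; ring)
  · exact coprime_of (-X ^ 2 + 6 * X + 7) (X - 6) 56 (by norm_num) (by unfold c; push_cast; ring)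
  · exact coprime_of (3 * X ^ 2 - 20 * X + 21) (-15 * X + 37) 112 (by norm_num)
      (by unfold c; push_cast; ring)

theorem c_degree (R : Type) [CommRing R] [Nontrivial R] : (c R).natDegree = 3 := by
  unfold c; compute_degree!

theorem f_degree : (f ℤ).natDegree = 7 := by
  unfold f; compute_degree!

theorem c_ne (R : Type) [CommRing R] [Nontrivial R] : c R ≠ 0 := by
  intro h
  have := c_degree R
  rw [h] at this
  simp at this

theorem c_roots (α : ℝ) : (c ℝ).rootMultiplicity α ≤ 1 := by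
  apply rootMultiplicity_le_one_of_separable
  rw [Polynomial.Separable]
  have hd : derivative (c ℝ) = 3 * X ^ 2 - 14 * X + 7 := by
    have h2 : (C 2 : ℝ[X]) = 2 := map_ofNat C 2
    unfold c
    simp
    rw [h2]
    ring
  rw [hd]
  exact coprime_of (-3 * X + 8) (X ^ 2 - 5 * X) 56 (by norm_num) (by unfold c; push_cast; ring)

/-- the denominator of `x ^ 3 / k` -/
noncomputable def B (R : Type) [CommRing R] : R[X] := C 27 * c R ^ 7

theorem B_roots (α : ℝ) : ((B ℤ).map (Int.castRingHom ℝ)).rootMultiplicity α ≤ 7 := by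
  have h1 : (B ℤ).map (Int.castRingHom ℝ) = C 27 * c ℝ ^ 7 := by
    unfold B
    rw [Polynomial.map_mul, Polynomial.map_pow, c_map, Polynomial.map_C]
    norm_num
  rw [h1, ← count_roots, roots_C_mul _ (by norm_num : (27 : ℝ) ≠ 0), roots_pow,
    Multiset.count_nsmul, count_roots]
  have := c_roots α
  omega

theorem A_degree : (-f ℤ ^ 3).natDegree = 21 := by
  rw [natDegree_neg, natDegree_pow, f_degree]

theorem B_degree : (B ℤ).natDegree = 21 := by
  unfold B
  rw [natDegree_C_mul (by norm_num : (27 : ℤ) ≠ 0), natDegree_pow, c_degree]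

theorem B_ne : B ℤ ≠ 0 := by
  intro h
  have := B_degree
  rw [h] at this
  simp at this

theorem AB_coprime :
    IsCoprime ((-f ℤ ^ 3).map (Int.castRingHom ℚ)) ((B ℤ).map (Int.castRingHom ℚ)) := by
  have h1 : (B ℤ).map (Int.castRingHom ℚ) = C 27 * c ℚ ^ 7 := by
    unfold B
    rw [Polynomial.map_mul, Polynomial.map_pow, c_map, Polynomial.map_C]
    norm_num
  rw [h1, Polynomial.map_neg, Polynomial.map_pow, f_map]
  refine IsCoprime.neg_left (IsCoprime.mul_right ?_ (f_coprime_c.pow))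
  refine ⟨0, C (27 : ℚ)⁻¹, ?_⟩
  rw [zero_mul, zero_add, ← C_mul]
  norm_num

/-- the denominator of `J` has no rational zeros -/
theorem den_ne (t : ℚ) : t ^ 3 - 7 * t ^ 2 + 7 * t + 7 ≠ 0 := by
  intro h0
  have hirr : ∀ a b : ℤ, IsCoprime a b → a ^ 3 - 7 * a ^ 2 * b + 7 * a * b ^ 2 + 7 * b ^ 3 ≠ 0 := by
    intro a b hab h
    have h7 : (7 : ℤ) ∣ a := by
      have : (7 : ℤ) ∣ a ^ 3 := ⟨a ^ 2 * b - a * b ^ 2 - b ^ 3, by linarith⟩
      exact (by norm_num : Prime (7 : ℤ)).dvd_of_dvd_pow this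
    obtain ⟨e, rfl⟩ := h7
    have h8 : (7 : ℤ) ∣ b := by
      have : (7 : ℤ) ∣ b ^ 3 := ⟨-(7 * e ^ 3 - 7 * e ^ 2 * b + e * b ^ 2), by linarith⟩
      exact (by norm_num : Prime (7 : ℤ)).dvd_of_dvd_pow this
    have h9 := hab.isUnit_of_dvd' (dvd_mul_right 7 e) h8
    exact absurd h9 (by decide)
  apply hirr t.num t.den
  · rw [Int.isCoprime_iff_nat_coprime]; simpa using t.reduced
  · have hd : (t.den : ℚ) ≠ 0 := by exact_mod_cast t.den_ne_zero
    have h1 : (t.num : ℚ) = t * t.den := by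
      rw [← Rat.num_div_den t]
      simp
    have h2 : ((t.num ^ 3 - 7 * t.num ^ 2 * t.den + 7 * t.num * t.den ^ 2 + 7 * t.den ^ 3 : ℤ) : ℚ)
        = 0 := by
      push_cast
      rw [h1]
      linear_combination (t.den : ℚ) ^ 3 * h0
    exact_mod_cast h2

theorem result :
    (∀ (A B : ℤ[X]) (κ d : ℕ), B ≠ 0 →
      IsCoprime (A.map (Int.castRingHom ℚ)) (B.map (Int.castRingHom ℚ)) →
      d = max A.natDegree B.natDegree → κ < d → A.natDegree ≤ B.natDegree + κ →
      (∀ α : ℝ, Irrational α → 2 * (B.map (Int.castRingHom ℝ)).rootMultiplicity α ≤ κ) →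
      (∀ α : ℚ, (B.map (Int.castRingHom ℝ)).rootMultiplicity (α : ℝ) ≤ κ) →
      ∀ ε : ℝ, 0 < ε → ∃ C : ℝ, 0 < C ∧ ∀ x y : ℤ, y ^ 2 ≠ x ^ 3 →
        (∃ t : ℚ, aeval t B ≠ 0 ∧ (x : ℚ) ^ 3 / (y ^ 2 - x ^ 3) = aeval t A / aeval t B) →
        C * |(x : ℝ)| ^ (3 * (1 - (κ : ℝ) / d) - ε) < |(y : ℝ) ^ 2 - (x : ℝ) ^ 3|) ∧
    (∀ ε : ℝ, 0 < ε → ∃ C : ℝ, 0 < C ∧ ∀ x y : ℤ, y ^ 2 ≠ x ^ 3 →
      (∃ t : ℚ, (E x y).c₄ ^ 3 = J t * (E x y).Δ) →
        C * |(x : ℝ)| ^ (1 - ε) < |(y : ℝ) ^ 2 - (x : ℝ) ^ 3|) := by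
  constructor
  · intro A B κ d hB hcop hd hκ hdeg hirr hrat ε hε
    have hlead : A.coeff d ≠ 0 ∨ B.coeff d ≠ 0 := by
      rcases max_choice A.natDegree B.natDegree with h1 | h1
      · by_cases hA : A = 0
        · right
          rw [hA, natDegree_zero] at hd h1
          rw [hd, max_eq_right (Nat.zero_le _)]
          exact leadingCoeff_ne_zero.2 hB
        · left
          rw [hd, h1]
          exact leadingCoeff_ne_zero.2 hA
      · right
        rw [hd, h1]
        exact leadingCoeff_ne_zero.2 hB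
    obtain ⟨C, hC, h⟩ := hall_strict hB hcop (hd ▸ le_max_left _ _) (hd ▸ le_max_right _ _) hlead
      (by omega) hdeg hirr
      (by
        intro α hα
        rw [Irrational, not_not] at hα
        obtain ⟨r, rfl⟩ := hα
        exact hrat r) hε
    refine ⟨C, hC, ?_⟩
    rintro x y hxy ⟨t, ht0, ht1⟩
    refine h x y hxy ⟨t, ht0, ?_⟩
    have hk : (y : ℚ) ^ 2 - x ^ 3 ≠ 0 := by
      rw [sub_ne_zero]; exact_mod_cast hxy
    rw [div_eq_div_iff hk ht0] at ht1
    rw [ht1]; ring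
  · intro ε hε
    obtain ⟨C, hC, h⟩ := hall_strict (A := -f ℤ ^ 3) (B := B ℤ) (κ := 14) (d := 21) B_ne AB_coprime
      A_degree.le B_degree.le
      (Or.inr (by
        have h1 : (B ℤ).coeff (B ℤ).natDegree ≠ 0 := leadingCoeff_ne_zero.2 B_ne
        rwa [B_degree] at h1))
      (by norm_num) (by rw [A_degree, B_degree]; norm_num)
      (fun α _ => by have := B_roots α; omega) (fun α _ => by have := B_roots α; omega) hε
    refine ⟨C, hC, ?_⟩
    rintro x y hxy ⟨t, ht⟩
    have hcne := den_ne t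
    have eB : aeval t (B ℤ) = 27 * (t ^ 3 - 7 * t ^ 2 + 7 * t + 7) ^ 7 := by
      simp [B, c, map_ofNat]
    have eA : aeval t (-f ℤ ^ 3) =
        -(t * (t ^ 2 + 7) * (t ^ 2 - 7 * t + 14) * (5 * t ^ 2 - 14 * t - 7)) ^ 3 := by
      simp [f, map_ofNat]
    have h1 := h x y hxy ⟨t, ?_, ?_⟩
    · have e1 : 3 * (1 - ((14 : ℕ) : ℝ) / ((21 : ℕ) : ℝ)) - ε = 1 - ε := by push_cast; norm_num
      rwa [e1] at h1
    · rw [eB]
      exact mul_ne_zero (by norm_num) (pow_ne_zero _ hcne)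
    · have e2 : (E x y).c₄ = 144 * x := by
        simp only [WeierstrassCurve.c₄, WeierstrassCurve.b₂, WeierstrassCurve.b₄, E]; ring
      have e3 : (E x y).Δ = -1728 * (y ^ 2 - x ^ 3) := by
        simp only [WeierstrassCurve.Δ, WeierstrassCurve.b₂, WeierstrassCurve.b₄, WeierstrassCurve.b₆,
          WeierstrassCurve.b₈, E]; ring
      rw [e2, e3, J] at ht
      rw [eA, eB]
      obtain ⟨D, hD⟩ : ∃ D, D = t ^ 3 - 7 * t ^ 2 + 7 * t + 7 := ⟨_, rfl⟩
      obtain ⟨G, hG⟩ : ∃ G, G = t * (t ^ 2 + 7) * (t ^ 2 - 7 * t + 14) * (5 * t ^ 2 - 14 * t - 7) :=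
        ⟨_, rfl⟩
      rw [← hD, ← hG] at ht
      rw [← hD] at hcne
      rw [← hD, ← hG]
      field_simp at ht
      linear_combination (1 / 110592 : ℚ) * ht

end Pool.Agent.Results.MP_e734ed_nt.ThinSets
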